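import Mathlib

/-! Project HL: this part was written by helper15. -/

set_option autoImplicit false

namespace Pool.Agent.W192.HL.H15

/-- one term of the dyadic decomposition -/
theorem dyad_term (u v K : ℕ) (hu1 : 1 ≤ u) (hu2 : u < 2 ^ K) (hv1 : 1 ≤ v) (hv2 : v < 2 ^ K) :
    1 / (Real.sqrt (u : ℝ) * Real.sqrt (v : ℝ)) ≤
      ∑ i ∈ Finset.range K, ∑ j ∈ Finset.range K,
        if u < 2 ^ (i + 1) ∧ v < 2 ^ (j + 1) then
          1 / (Real.sqrt (2 ^ i : ℝ) * Real.sqrt (2 ^ j : ℝ)) else 0 := by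
  have hnn : ∀ i j : ℕ, (0 : ℝ) ≤ if u < 2 ^ (i + 1) ∧ v < 2 ^ (j + 1) then
          1 / (Real.sqrt (2 ^ i : ℝ) * Real.sqrt (2 ^ j : ℝ)) else 0 := by
    intro i j
    split_ifs <;> positivity
  have hi : Nat.log 2 u ∈ Finset.range K :=
    Finset.mem_range.mpr (Nat.log_lt_of_lt_pow (by omega) hu2)
  have hj : Nat.log 2 v ∈ Finset.range K :=
    Finset.mem_range.mpr (Nat.log_lt_of_lt_pow (by omega) hv2)
  have h1 := Finset.single_le_sum (f := fun i => ∑ j ∈ Finset.range K,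
    if u < 2 ^ (i + 1) ∧ v < 2 ^ (j + 1) then
          1 / (Real.sqrt (2 ^ i : ℝ) * Real.sqrt (2 ^ j : ℝ)) else 0)
    (fun i _ => Finset.sum_nonneg fun j _ => hnn i j) hi
  have h2 := Finset.single_le_sum (f := fun j =>
    if u < 2 ^ (Nat.log 2 u + 1) ∧ v < 2 ^ (j + 1) then
          1 / (Real.sqrt (2 ^ (Nat.log 2 u) : ℝ) * Real.sqrt (2 ^ j : ℝ)) else 0)
    (fun j _ => hnn _ j) hj
  refine le_trans ?_ (le_trans h2 h1)
  have hc : u < 2 ^ (Nat.log 2 u + 1) ∧ v < 2 ^ (Nat.log 2 v + 1) :=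
    ⟨Nat.lt_pow_succ_log_self (by norm_num) u, Nat.lt_pow_succ_log_self (by norm_num) v⟩
  simp only [if_pos hc]
  have e1 : ((2 : ℝ) ^ (Nat.log 2 u)) ≤ (u : ℝ) := by
    exact_mod_cast Nat.pow_log_le_self 2 (by omega)
  have e2 : ((2 : ℝ) ^ (Nat.log 2 v)) ≤ (v : ℝ) := by
    exact_mod_cast Nat.pow_log_le_self 2 (by omega)
  apply one_div_le_one_div_of_le
  · positivity
  · exact mul_le_mul (Real.sqrt_le_sqrt e1) (Real.sqrt_le_sqrt e2) (Real.sqrt_nonneg _)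
      (Real.sqrt_nonneg _)

theorem dyad {α : Type*} (P : Finset α) (u v : α → ℕ) (K : ℕ) (A : ℝ) (hA : 0 ≤ A)
    (hu : ∀ p ∈ P, 1 ≤ u p ∧ u p < 2 ^ K) (hv : ∀ p ∈ P, 1 ≤ v p ∧ v p < 2 ^ K)
    (h : ∀ i < K, ∀ j < K, ((P.filter (fun p => u p < 2 ^ (i+1) ∧ v p < 2 ^ (j+1))).card : ℝ) ≤
      A * (Real.sqrt (2 ^ (i+1)) * Real.sqrt (2 ^ (j+1)))) :
    ∑ p ∈ P, 1 / (Real.sqrt (u p) * Real.sqrt (v p)) ≤ 2 * A * K ^ 2 := by
  have h1 : ∑ p ∈ P, 1 / (Real.sqrt (u p) * Real.sqrt (v p)) ≤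
      ∑ p ∈ P, ∑ i ∈ Finset.range K, ∑ j ∈ Finset.range K,
        if u p < 2 ^ (i + 1) ∧ v p < 2 ^ (j + 1) then
          1 / (Real.sqrt (2 ^ i : ℝ) * Real.sqrt (2 ^ j : ℝ)) else 0 :=
    Finset.sum_le_sum fun p hp =>
      dyad_term (u p) (v p) K (hu p hp).1 (hu p hp).2 (hv p hp).1 (hv p hp).2
  refine h1.trans ?_
  rw [Finset.sum_comm]
  have h2 : ∀ i ∈ Finset.range K, ∑ p ∈ P, ∑ j ∈ Finset.range K,
        (if u p < 2 ^ (i + 1) ∧ v p < 2 ^ (j + 1) then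
          1 / (Real.sqrt (2 ^ i : ℝ) * Real.sqrt (2 ^ j : ℝ)) else 0) ≤ K * (2 * A) := by
    intro i hi
    rw [Finset.sum_comm]
    have h3 : ∀ j ∈ Finset.range K, ∑ p ∈ P,
        (if u p < 2 ^ (i + 1) ∧ v p < 2 ^ (j + 1) then
          1 / (Real.sqrt (2 ^ i : ℝ) * Real.sqrt (2 ^ j : ℝ)) else 0) ≤ 2 * A := by
      intro j hj
      rw [← Finset.sum_filter, Finset.sum_const, nsmul_eq_mul]
      have h4 := h i (Finset.mem_range.mp hi) j (Finset.mem_range.mp hj)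
      have hs : ∀ m : ℕ, Real.sqrt (2 ^ (m + 1) : ℝ) = Real.sqrt 2 * Real.sqrt (2 ^ m : ℝ) := by
        intro m
        rw [← Real.sqrt_mul (by norm_num : (0:ℝ) ≤ 2), pow_succ, mul_comm]
      rw [hs i, hs j] at h4
      have p1 : (0 : ℝ) < Real.sqrt (2 ^ i : ℝ) := by positivity
      have p2 : (0 : ℝ) < Real.sqrt (2 ^ j : ℝ) := by positivity
      have h22 : Real.sqrt 2 * Real.sqrt 2 = 2 := Real.mul_self_sqrt (by norm_num)
      rw [mul_one_div, div_le_iff₀ (mul_pos p1 p2)]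
      refine h4.trans (le_of_eq ?_)
      calc A * (Real.sqrt 2 * Real.sqrt (2 ^ i : ℝ) * (Real.sqrt 2 * Real.sqrt (2 ^ j : ℝ)))
          = A * (Real.sqrt 2 * Real.sqrt 2) * (Real.sqrt (2 ^ i : ℝ) * Real.sqrt (2 ^ j : ℝ)) := by
            ring
        _ = 2 * A * (Real.sqrt (2 ^ i : ℝ) * Real.sqrt (2 ^ j : ℝ)) := by
            rw [h22]
            ring
    refine (Finset.sum_le_sum h3).trans (le_of_eq ?_)
    rw [Finset.sum_const, Finset.card_range, nsmul_eq_mul]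
  refine (Finset.sum_le_sum h2).trans (le_of_eq ?_)
  rw [Finset.sum_const, Finset.card_range, nsmul_eq_mul]
  ring

end Pool.Agent.W192.HL.H15
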