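import Mathlib
import Pool.Agent.W192.HK.PartsL
import Pool.Agent.W192.HL.Dyad

/-!
# Project HL: the dyadic decomposition
-/

set_option autoImplicit false

open Complex Filter Topology Set

namespace Pool.Agent.W192.HL

open Pool.Agent.W192.HK

theorem box (hbasic : H_BASIC) (hcnt : H_CNT) (hpair : L_PAIR) (R : Subring ℂ) (ω : ℂ)
    (hR : QR R ω) (η : ℝ) (hη : 0 < η) (hη2 : η ≤ 1 / 2) :
    ∃ C : ℝ, 0 < C ∧ ∀ (c : Ideal R) (χ : Ideal R → ℂ), RC c χ → ∀ d : ℕ, Od χ d →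
      ∀ P : Finset (Ideal R × Ideal R),
      (∀ p, p ∈ P ↔ p ∈ prs χ ((nm c) ^ (1 / 2 + η)) ((nm c) ^ (1 / 2 + η))) →
      ∑ p ∈ P, 1 / (Real.sqrt (nm p.1) * Real.sqrt (nm p.2)) ≤
        C * (nm c) ^ (3 * η) * Real.sqrt (nm c / d) := by
  classical
  obtain ⟨hfin, hbot, hge1, hmul, hsp, hdvd, htop, hnat, hunits⟩ := hbasic R ω hR
  obtain ⟨hfinI, -, C2, hC2, hcntI, -⟩ := hcnt R ω hR
  obtain ⟨C1, hC1, hP1⟩ := hpair R ω hR
  -- constants
  set B : ℝ := C2 ^ 2 * C1 * (1 + 2 / η + 4) with hB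
  have hBpos : 0 < B := by positivity
  set D : ℝ := 1 + 1 / (η * Real.log 2) with hD
  have hlog2 : 0 < Real.log 2 := Real.log_pos one_lt_two
  have hDpos : 0 < D := by positivity
  refine ⟨2 * Real.sqrt B * D ^ 2, by positivity, ?_⟩
  intro c χ hχ d hd P hP
  set N := nm c with hN
  have hN1 : 1 ≤ N := hge1 c hχ.ne
  have hN0 : 0 < N := lt_of_lt_of_le one_pos hN1
  set Z : ℝ := N ^ (1 / 2 + η) with hZ
  have hZ1 : 1 ≤ Z := Real.one_le_rpow hN1 (by linarith)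
  have hZ0 : 0 < Z := lt_of_lt_of_le one_pos hZ1
  have hdpos : (0:ℝ) < d := by exact_mod_cast hd.pos
  have hZη : Z ^ η ≤ N ^ η := by
    rw [hZ, ← Real.rpow_mul hN0.le]
    apply Real.rpow_le_rpow_of_exponent_le hN1
    nlinarith
  have hNη : 1 ≤ N ^ η := Real.one_le_rpow hN1 hη.le
  have hN2η : N ^ (2 * η) = N ^ η * N ^ η := by
    rw [← Real.rpow_add hN0]; congr 1; ring
  have hZZ : Z * Z = N * N ^ (2 * η) := by
    rw [hZ, ← Real.rpow_add hN0]
    conv_rhs => rw [← Real.rpow_one N]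
    rw [← Real.rpow_mul hN0.le, ← Real.rpow_add hN0]
    congr 1
    ring
  set K : ℕ := Nat.log 2 ⌊Z⌋₊ + 1 with hK
  have hfl : 1 ≤ ⌊Z⌋₊ := Nat.le_floor (by exact_mod_cast hZ1)
  have hK1 : (2:ℝ) ^ (K - 1 : ℕ) ≤ Z := by
    have h1 : 2 ^ (Nat.log 2 ⌊Z⌋₊) ≤ ⌊Z⌋₊ := Nat.pow_log_le_self 2 (by omega)
    have h2 : ((2 ^ (Nat.log 2 ⌊Z⌋₊) : ℕ) : ℝ) ≤ (⌊Z⌋₊ : ℝ) := by exact_mod_cast h1
    have h3 : (⌊Z⌋₊ : ℝ) ≤ Z := Nat.floor_le hZ0.le
    have h4 : K - 1 = Nat.log 2 ⌊Z⌋₊ := by omega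
    rw [h4]
    push_cast at h2
    linarith
  have hK2 : ∀ n : ℕ, (n : ℝ) ≤ Z → n < 2 ^ K := by
    intro n hn
    have h1 : n ≤ ⌊Z⌋₊ := Nat.le_floor hn
    exact lt_of_le_of_lt h1 (Nat.lt_pow_succ_log_self one_lt_two _)
  have hKb : (K : ℝ) ≤ D * N ^ η := by
    have h1 : ((K - 1 : ℕ) : ℝ) * Real.log 2 ≤ Real.log Z := by
      rw [← Real.log_pow]
      exact Real.log_le_log (by positivity) hK1
    have h2 : Real.log Z ≤ Z ^ η / η := Real.log_le_rpow_div hZ0.le hη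
    have h3 : ((K - 1 : ℕ) : ℝ) = (K : ℝ) - 1 := by
      have : 1 ≤ K := by omega
      push_cast [Nat.cast_sub this]
      ring
    rw [h3] at h1
    have h4 : ((K : ℝ) - 1) * Real.log 2 ≤ N ^ η / η :=
      h1.trans (h2.trans (div_le_div_of_nonneg_right hZη hη.le))
    have h5 : (K : ℝ) - 1 ≤ N ^ η / η / Real.log 2 := by
      rw [le_div_iff₀ hlog2]; exact h4
    have h6 : N ^ η / η / Real.log 2 = 1 / (η * Real.log 2) * N ^ η := by
      field_simp
    rw [hD]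
    nlinarith
  -- the bound for the boxes
  set A : ℝ := Real.sqrt B * N ^ η * Real.sqrt (N / d) with hA
  have hA0 : 0 ≤ A := by positivity
  have hnn : ∀ I : Ideal R, 0 ≤ nm I := fun I => Nat.cast_nonneg _
  have hbox : ∀ i < K, ∀ j < K, ((P.filter (fun p : Ideal R × Ideal R =>
      Nat.card (R ⧸ p.1) < 2 ^ (i+1) ∧ Nat.card (R ⧸ p.2) < 2 ^ (j+1))).card : ℝ) ≤
      A * (Real.sqrt (2 ^ (i+1)) * Real.sqrt (2 ^ (j+1))) := by
    intro i hi j hj
    set x : ℝ := 2 ^ (i+1) with hx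
    set y : ℝ := 2 ^ (j+1) with hy
    have hx1 : 1 ≤ x := one_le_pow₀ (by norm_num)
    have hy1 : 1 ≤ y := one_le_pow₀ (by norm_num)
    have hpk : ∀ i < K, (2:ℝ) ^ (i+1) ≤ 2 * Z := by
      intro i hi
      have h1 : (2:ℝ) ^ (i + 1) ≤ 2 * 2 ^ (K - 1) := by
        have h2 : 2 * (2:ℝ) ^ (K - 1) = 2 ^ K := by
          rw [← pow_succ']; congr 1
        rw [h2]
        exact pow_le_pow_right₀ (by norm_num) (by omega)
      linarith
    have hx2 : x ≤ 2 * Z := hpk i hi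
    have hy2 : y ≤ 2 * Z := hpk j hj
    set Q := P.filter (fun p : Ideal R × Ideal R =>
      Nat.card (R ⧸ p.1) < 2 ^ (i+1) ∧ Nat.card (R ⧸ p.2) < 2 ^ (j+1)) with hQ
    have hQm : ∀ p ∈ Q, p ∈ prs χ x y := by
      intro p hp
      simp only [hQ, Finset.mem_filter, hP] at hp
      obtain ⟨⟨h1, -, -, h4, h5⟩, h6, h7⟩ := hp
      refine ⟨h1, ?_, ?_, h4, h5⟩
      · simp only [nm, hx]
        exact_mod_cast h6.le
      · simp only [nm, hy]
        exact_mod_cast h7.le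
    obtain ⟨hPf, hPc⟩ := hP1 c χ hχ d hd x y hx1 hy1
    have hb1 : (Q.card : ℝ) ≤ C1 * (N / d) * (1 + Real.log y + x * y / N) := by
      refine le_trans ?_ hPc
      have := Set.ncard_le_ncard (s := (Q : Set (Ideal R × Ideal R))) (fun p hp => hQm p hp) hPf
      rw [Set.ncard_coe_finset] at this
      exact_mod_cast this
    have hb2 : (Q.card : ℝ) ≤ (C2 * x) * (C2 * y) := by
      have hs1 : (Q : Set (Ideal R × Ideal R)) ⊆ {I : Ideal R | nm I ≤ x} ×ˢ {I : Ideal R | nm I ≤ y} := by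
        intro p hp
        have := hQm p hp
        exact ⟨this.2.1, this.2.2.1⟩
      have h1 := Set.ncard_le_ncard hs1 ((hfinI x).prod (hfinI y))
      rw [Set.ncard_coe_finset, Set.ncard_prod] at h1
      have h2 : (Q.card : ℝ) ≤ (Set.ncard {I : Ideal R | nm I ≤ x} : ℝ) * (Set.ncard {I : Ideal R | nm I ≤ y} : ℝ) := by
        exact_mod_cast h1
      refine h2.trans ?_
      exact mul_le_mul (hcntI x hx1) (hcntI y hy1) (Nat.cast_nonneg _) (by positivity)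
    have hb3 : 1 + Real.log y + x * y / N ≤ (1 + 2 / η + 4) * N ^ (2 * η) := by
      have h1 : Real.log y ≤ Real.log (2 * Z) := Real.log_le_log (by linarith) hy2
      have h2 : Real.log (2 * Z) ≤ (2 * Z) ^ η / η := Real.log_le_rpow_div (by linarith) hη
      have h3 : (2 * Z) ^ η ≤ 2 * N ^ η := by
        rw [Real.mul_rpow (by norm_num) hZ0.le]
        have h4 : (2:ℝ) ^ η ≤ 2 := by
          calc (2:ℝ) ^ η ≤ 2 ^ (1:ℝ) := Real.rpow_le_rpow_of_exponent_le (by norm_num) (by linarith)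
            _ = 2 := Real.rpow_one 2
        exact mul_le_mul h4 hZη (Real.rpow_nonneg hZ0.le _) (by norm_num)
      have h5 : x * y / N ≤ 4 * N ^ (2 * η) := by
        rw [div_le_iff₀ hN0]
        calc x * y ≤ (2 * Z) * (2 * Z) := mul_le_mul hx2 hy2 (by linarith) (by linarith)
          _ = 4 * (Z * Z) := by ring
          _ = 4 * N ^ (2 * η) * N := by rw [hZZ]; ring
      have h6 : N ^ η ≤ N ^ (2 * η) := by
        rw [hN2η]; nlinarith
      have h7 : Real.log y ≤ 2 / η * N ^ (2 * η) := by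
        refine (h1.trans h2).trans ?_
        calc (2 * Z) ^ η / η ≤ (2 * N ^ η) / η := div_le_div_of_nonneg_right h3 hη.le
          _ = 2 / η * N ^ η := by ring
          _ ≤ 2 / η * N ^ (2 * η) := mul_le_mul_of_nonneg_left h6 (by positivity)
      have h8 : 1 ≤ N ^ (2 * η) := hNη.trans h6
      have h9 : (1 + 2 / η + 4) * N ^ (2 * η) =
          N ^ (2 * η) + 2 / η * N ^ (2 * η) + 4 * N ^ (2 * η) := by ring
      rw [h9]
      linarith
    have hb4 : (Q.card : ℝ) ^ 2 ≤ (A * (Real.sqrt x * Real.sqrt y)) ^ 2 := by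
      have h1 : (Q.card : ℝ) ^ 2 ≤ (C1 * (N / d) * (1 + Real.log y + x * y / N)) * ((C2 * x) * (C2 * y)) := by
        rw [sq]
        exact mul_le_mul hb1 hb2 (Nat.cast_nonneg _) (le_trans (Nat.cast_nonneg _) hb1)
      refine h1.trans ?_
      have h2 : (A * (Real.sqrt x * Real.sqrt y)) ^ 2 = B * (N ^ η * N ^ η) * (N / d) * (x * y) := by
        rw [hA]
        have e1 : Real.sqrt B ^ 2 = B := Real.sq_sqrt hBpos.le
        have e2 : Real.sqrt (N / d) ^ 2 = N / d := Real.sq_sqrt (by positivity)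
        have e3 : Real.sqrt x ^ 2 = x := Real.sq_sqrt (by linarith)
        have e4 : Real.sqrt y ^ 2 = y := Real.sq_sqrt (by linarith)
        calc _ = Real.sqrt B ^ 2 * (N ^ η * N ^ η) * Real.sqrt (N / d) ^ 2 *
              (Real.sqrt x ^ 2 * Real.sqrt y ^ 2) := by ring
          _ = _ := by rw [e1, e2, e3, e4]
      rw [h2, ← hN2η, hB]
      calc (C1 * (N / d) * (1 + Real.log y + x * y / N)) * ((C2 * x) * (C2 * y))
          ≤ (C1 * (N / d) * ((1 + 2 / η + 4) * N ^ (2 * η))) * ((C2 * x) * (C2 * y)) := by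
            apply mul_le_mul_of_nonneg_right _ (by positivity)
            exact mul_le_mul_of_nonneg_left hb3 (by positivity)
        _ = _ := by ring
    exact (pow_le_pow_iff_left₀ (Nat.cast_nonneg _) (by positivity) two_ne_zero).1 hb4
  have hcard : ∀ p ∈ P, p.1 ≠ ⊥ ∧ p.2 ≠ ⊥ ∧ nm p.1 ≤ Z ∧ nm p.2 ≤ Z := by
    intro p hp
    obtain ⟨-, h2, h3, h4, h5⟩ := (hP p).1 hp
    refine ⟨fun h => h4 ((hχ.zero _).2 (Or.inl h)), fun h => h4 ?_, h2, h3⟩
    rw [h5]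
    exact (hχ.zero _).2 (Or.inl h)
  have hone : ∀ I : Ideal R, I ≠ ⊥ → 1 ≤ Nat.card (R ⧸ I) := by
    intro I hI
    have := hge1 I hI
    simp only [nm] at this
    exact_mod_cast this
  have hmain := Pool.Agent.W192.HL.H15.dyad P (fun p => Nat.card (R ⧸ p.1)) (fun p => Nat.card (R ⧸ p.2)) K A hA0
    (fun p hp => ⟨hone _ (hcard p hp).1, hK2 _ (hcard p hp).2.2.1⟩)
    (fun p hp => ⟨hone _ (hcard p hp).2.1, hK2 _ (hcard p hp).2.2.2⟩) hbox
  have hfinal : 2 * A * (K:ℝ) ^ 2 ≤ 2 * Real.sqrt B * D ^ 2 * N ^ (3 * η) * Real.sqrt (N / d) := by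
    have h1 : (K:ℝ) ^ 2 ≤ (D * N ^ η) ^ 2 := pow_le_pow_left₀ (Nat.cast_nonneg _) hKb 2
    have h3 : N ^ (3 * η) = N ^ η * N ^ η * N ^ η := by
      rw [← Real.rpow_add hN0, ← Real.rpow_add hN0]; congr 1; ring
    calc 2 * A * (K:ℝ) ^ 2 ≤ 2 * A * (D * N ^ η) ^ 2 := mul_le_mul_of_nonneg_left h1 (by positivity)
      _ = _ := by rw [hA, h3]; ring
  exact le_trans hmain hfinal

end Pool.Agent.W192.HL
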