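import Mathlib
import Pool.Agent.W192.HK.PartsL

/-!
# Project HL: the decomposition by the greatest common divisor
-/

set_option autoImplicit false

open Complex Filter Topology Set

namespace Pool.Agent.W192.HL

open Pool.Agent.W192.HK

open Classical in
theorem gcdsum (hbasic : H_BASIC) (hcnt : H_CNT) (R : Subring ℂ) (ω : ℂ) (hR : QR R ω) (η : ℝ)
    (hη : 0 < η) : ∃ C : ℝ, 0 < C ∧ ∀ (c : Ideal R) (χ : Ideal R → ℂ), RC c χ → ∀ Z : ℝ, 1 ≤ Z →
      ∀ S : Finset (Ideal R), (∀ I, I ∈ S ↔ nm I ≤ Z) → ∀ P : Finset (Ideal R × Ideal R),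
      (∀ p, p ∈ P ↔ p ∈ prs χ Z Z) →
      ∑ p ∈ S ×ˢ S, (if χ p.1 ≠ 0 ∧ χ p.1 = χ p.2 then
        1 / (Real.sqrt (nm p.1) * Real.sqrt (nm p.2)) else 0) ≤
      C * Z ^ η * ∑ p ∈ P, 1 / (Real.sqrt (nm p.1) * Real.sqrt (nm p.2)) := by
  haveI := hR.ded
  obtain ⟨hfin, hbot, hge1, hmul, hsp, hdvd, htop, hnat, hunits⟩ := hbasic R ω hR
  obtain ⟨-, hsum, -⟩ := hcnt R ω hR
  have hs := hsum (1 + η) (by linarith)
  have hnn : ∀ I : Ideal R, 0 ≤ nm I := fun I => Nat.cast_nonneg _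
  refine ⟨∑' I : Ideal R, (nm I) ^ (-(1 + η)) + 1, ?_, ?_⟩
  · have : 0 ≤ ∑' I : Ideal R, (nm I) ^ (-(1 + η)) :=
      tsum_nonneg fun I => Real.rpow_nonneg (hnn I) _
    linarith
  intro c χ hχ Z hZ S hS P hP
  set f : Ideal R × Ideal R → ℝ := fun p => 1 / (Real.sqrt (nm p.1) * Real.sqrt (nm p.2)) with hf
  have hf0 : ∀ p, 0 ≤ f p := fun p => by simp only [hf]; positivity
  set T := (S ×ˢ S).filter (fun p : Ideal R × Ideal R => χ p.1 ≠ 0 ∧ χ p.1 = χ p.2) with hT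
  have h1 : ∑ p ∈ S ×ˢ S, (if χ p.1 ≠ 0 ∧ χ p.1 = χ p.2 then
        1 / (Real.sqrt (nm p.1) * Real.sqrt (nm p.2)) else 0) = ∑ p ∈ T, f p := by
    rw [hT, Finset.sum_filter]
  rw [h1]
  set m : Ideal R × (Ideal R × Ideal R) → Ideal R × Ideal R :=
    fun x => (x.1 * x.2.1, x.1 * x.2.2) with hm
  have hk : ∀ p ∈ T, ∃ x ∈ S ×ˢ P, m x = p := by
    intro p hp
    simp only [hT, Finset.mem_filter, Finset.mem_product, hS] at hp
    obtain ⟨⟨hp1, hp2⟩, hn, he⟩ := hp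
    have hb1 : p.1 ≠ ⊥ := fun h => hn ((hχ.zero _).2 (Or.inl h))
    have hn2 : χ p.2 ≠ 0 := he ▸ hn
    have hb2 : p.2 ≠ ⊥ := fun h => hn2 ((hχ.zero _).2 (Or.inl h))
    set G := p.1 ⊔ p.2 with hG
    obtain ⟨I', hI'⟩ : G ∣ p.1 := Ideal.dvd_iff_le.2 le_sup_left
    obtain ⟨J', hJ'⟩ : G ∣ p.2 := Ideal.dvd_iff_le.2 le_sup_right
    have hG0 : G ≠ ⊥ := by
      intro h
      apply hb1
      rw [hI', h, Ideal.bot_mul]
    have hI0 : I' ≠ ⊥ := by
      intro h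
      apply hb1
      rw [hI', h, Ideal.mul_bot]
    have hJ0 : J' ≠ ⊥ := by
      intro h
      apply hb2
      rw [hJ', h, Ideal.mul_bot]
    have hco : IsCoprime I' J' := by
      rw [Ideal.isCoprime_iff_sup_eq]
      have h3 : G * (I' ⊔ J') = G * ⊤ := by
        rw [Ideal.mul_sup, ← hI', ← hJ', Ideal.mul_top]
      exact mul_left_cancel₀ (by simpa using hG0) h3
    have hχG : χ G ≠ 0 := by
      intro h
      apply hn
      rw [hI', hχ.mul, h, zero_mul]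
    have hχI : χ I' ≠ 0 := by
      intro h
      apply hn
      rw [hI', hχ.mul, h, mul_zero]
    have hχe : χ I' = χ J' := by
      have : χ G * χ I' = χ G * χ J' := by
        rw [← hχ.mul, ← hχ.mul, ← hI', ← hJ', he]
      exact mul_left_cancel₀ hχG this
    refine ⟨(G, (I', J')), ?_, ?_⟩
    · simp only [Finset.mem_product, hS, hP]
      refine ⟨le_trans (hdvd _ _ hb1 ⟨I', hI'⟩) hp1, hco, ?_, ?_, hχI, hχe⟩
      · exact le_trans (hdvd _ _ hb1 ⟨G, by rw [mul_comm]; exact hI'⟩) hp1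
      · exact le_trans (hdvd _ _ hb2 ⟨G, by rw [mul_comm]; exact hJ'⟩) hp2
    · simp only [hm]
      rw [← hI', ← hJ']
  choose! k hk1 hk2 using hk
  have h2 : ∑ p ∈ T, f p = ∑ x ∈ T.image k, f (m x) := by
    rw [Finset.sum_image]
    · exact Finset.sum_congr rfl fun p hp => by rw [hk2 p hp]
    · intro p hp p' hp' h
      rw [← hk2 p hp, ← hk2 p' hp', h]
  have h3 : ∑ x ∈ T.image k, f (m x) ≤ ∑ x ∈ S ×ˢ P, f (m x) := by
    apply Finset.sum_le_sum_of_subset_of_nonneg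
    · intro x hx
      obtain ⟨p, hp, rfl⟩ := Finset.mem_image.1 hx
      exact hk1 p hp
    · intro x _ _
      exact hf0 _
  have h4 : ∀ x : Ideal R × (Ideal R × Ideal R), f (m x) = 1 / nm x.1 * f x.2 := by
    intro x
    simp only [hf, hm, hmul]
    rw [Real.sqrt_mul (hnn _), Real.sqrt_mul (hnn _)]
    have : Real.sqrt (nm x.1) * Real.sqrt (nm x.1) = nm x.1 := Real.mul_self_sqrt (hnn _)
    rw [div_mul_div_comm, one_mul]
    congr 1
    calc _ = (Real.sqrt (nm x.1) * Real.sqrt (nm x.1)) * (Real.sqrt (nm x.2.1) * Real.sqrt (nm x.2.2)) := by ring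
      _ = _ := by rw [this]
  have h5 : ∑ x ∈ S ×ˢ P, f (m x) = (∑ G ∈ S, 1 / nm G) * ∑ p ∈ P, f p := by
    rw [Finset.sum_mul_sum, ← Finset.sum_product']
    exact Finset.sum_congr rfl fun x _ => h4 x
  have h6 : ∑ G ∈ S, 1 / nm G ≤ (∑' I : Ideal R, (nm I) ^ (-(1 + η)) + 1) * Z ^ η := by
    have h7 : ∑ G ∈ S, 1 / nm G ≤ ∑ G ∈ S, (nm G) ^ (-(1 + η)) * Z ^ η := by
      apply Finset.sum_le_sum
      intro G hG
      by_cases hG0 : G = ⊥
      · rw [hG0, hbot]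
        simp only [div_zero]
        positivity
      have hp : 0 < nm G := lt_of_lt_of_le one_pos (hge1 G hG0)
      have hle : nm G ≤ Z := (hS G).1 hG
      calc 1 / nm G = (nm G) ^ (-(1 + η)) * (nm G) ^ η := by
            rw [← Real.rpow_add hp, show -(1 + η) + η = -1 by ring, Real.rpow_neg_one, one_div]
        _ ≤ (nm G) ^ (-(1 + η)) * Z ^ η := by
            apply mul_le_mul_of_nonneg_left _ (Real.rpow_nonneg (hnn _) _)
            exact Real.rpow_le_rpow (hnn _) hle hη.le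
    rw [← Finset.sum_mul] at h7
    refine h7.trans ?_
    apply mul_le_mul_of_nonneg_right _ (Real.rpow_nonneg (by linarith) _)
    have := hs.sum_le_tsum S (fun I _ => Real.rpow_nonneg (hnn I) _)
    linarith
  rw [h2]
  refine h3.trans ?_
  rw [h5]
  exact mul_le_mul_of_nonneg_right h6 (Finset.sum_nonneg fun p _ => hf0 p)

end Pool.Agent.W192.HL
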