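import Mathlib
import Pool.Agent.W192.HK.Parts0

/-! Project HL: this part was written by helper836. -/

/-!
# HL-T: the tail of the smooth sum
-/

set_option autoImplicit false

open Complex Filter Topology Set

namespace Pool.Agent.W192.HL.H836

open Pool.Agent.W192.HK

theorem exp_neg_le (k : ℕ) (x : ℝ) (hx : 0 < x) :
    Real.exp (-(x / 2)) ≤ (k.factorial : ℝ) * 2 ^ k / x ^ k := by
  have h := Real.pow_div_factorial_le_exp (x / 2) (by positivity) k
  rw [Real.exp_neg]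
  have hf : (0 : ℝ) < k.factorial := by exact_mod_cast Nat.factorial_pos k
  have hp : 0 < (x / 2) ^ k / (k.factorial : ℝ) := by positivity
  calc (Real.exp (x / 2))⁻¹ ≤ ((x / 2) ^ k / (k.factorial : ℝ))⁻¹ := inv_anti₀ hp h
    _ = (k.factorial : ℝ) * 2 ^ k / x ^ k := by
      rw [div_pow]; field_simp

theorem pow_bound {n N η : ℝ} (hN : 1 ≤ N) (j : ℕ) (hj : 2 ≤ j * η)
    (hlt : N ^ (1 / 2 + η) < n) : (Real.sqrt N) ^ (j + 2) * N ≤ n ^ j := by
  have hN0 : 0 < N := by linarith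
  have h1 : (Real.sqrt N) ^ (j + 2) * N = N ^ ((j : ℝ) / 2 + 2) := by
    rw [Real.sqrt_eq_rpow, ← Real.rpow_natCast, ← Real.rpow_mul hN0.le]
    nth_rewrite 2 [← Real.rpow_one N]
    rw [← Real.rpow_add hN0]
    congr 1
    push_cast
    ring
  have h2 : N ^ ((1 / 2 + η) * j) ≤ n ^ j := by
    rw [Real.rpow_mul hN0.le, Real.rpow_natCast]
    exact pow_le_pow_left₀ (by positivity) hlt.le j
  rw [h1]
  refine le_trans (Real.rpow_le_rpow_of_exponent_le hN ?_) h2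
  nlinarith

theorem term_bound {n N c0 η CV : ℝ} (hn1 : 1 ≤ n) (hN : 1 ≤ N) (hc0 : 0 < c0)
    (hCV : 0 < CV) (j : ℕ) (hj : 2 ≤ j * η)
    (hlt : N ^ (1 / 2 + η) < n) {v gn : ℝ} (hg : gn ≤ Real.sqrt n) (hg0 : 0 ≤ gn) (hv0 : 0 ≤ v)
    (hv : v ≤ CV * Real.exp (-((n / (c0 * Real.sqrt N)) / 2))) :
    gn / n * v ≤ (CV * ((j + 2).factorial * 2 ^ (j + 2) * c0 ^ (j + 2))) / N * n ^ (-2 : ℝ) := by
  have hn0 : 0 < n := by linarith
  have hN0 : 0 < N := by linarith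
  have hs : 0 < Real.sqrt N := Real.sqrt_pos.mpr hN0
  have hgn : gn / n ≤ 1 := by
    rw [div_le_one hn0]
    refine hg.trans ?_
    rw [Real.sqrt_le_left hn0.le]
    nlinarith
  have hf : (0 : ℝ) < (j + 2).factorial := by exact_mod_cast Nat.factorial_pos (j + 2)
  have hx : 0 < n / (c0 * Real.sqrt N) := by positivity
  have h1 : gn / n * v ≤ v := by
    have := mul_le_mul_of_nonneg_right hgn hv0
    linarith
  have h2 := exp_neg_le (j + 2) _ hx
  have h3 : v ≤ CV * (((j + 2).factorial : ℝ) * 2 ^ (j + 2) / (n / (c0 * Real.sqrt N)) ^ (j + 2)) :=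
    hv.trans (mul_le_mul_of_nonneg_left h2 hCV.le)
  have h4 : CV * (((j + 2).factorial : ℝ) * 2 ^ (j + 2) / (n / (c0 * Real.sqrt N)) ^ (j + 2)) =
      (CV * ((j + 2).factorial * 2 ^ (j + 2) * c0 ^ (j + 2))) *
        ((Real.sqrt N) ^ (j + 2) / n ^ (j + 2)) := by
    rw [div_pow, mul_pow]; field_simp
  have h5 : (Real.sqrt N) ^ (j + 2) / n ^ (j + 2) ≤ n ^ (-2 : ℝ) / N := by
    have e : n ^ (-2 : ℝ) = (n ^ 2)⁻¹ := by
      rw [Real.rpow_neg hn0.le]; norm_num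
    rw [e, div_le_div_iff₀ (by positivity) hN0, pow_add n j 2]
    have := pow_bound hN j hj hlt
    calc (Real.sqrt N) ^ (j + 2) * N ≤ n ^ j := this
      _ = (n ^ 2)⁻¹ * (n ^ j * n ^ 2) := by field_simp
  refine h1.trans (h3.trans ?_)
  rw [h4]
  calc _ ≤ (CV * ((j + 2).factorial * 2 ^ (j + 2) * c0 ^ (j + 2))) * (n ^ (-2 : ℝ) / N) :=
        mul_le_mul_of_nonneg_left h5 (by positivity)
    _ = _ := by ring

theorem htail (h1 : H_BASIC) (h2 : H_CNT) : ∀ (V : ℝ → ℝ) (CV : ℝ), VH V CV →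
    ∀ (R : Subring ℂ) (ω : ℂ), QR R ω →
  ∀ g : Ideal R → ℂ, Gd R g → ∀ c0 : ℝ, 0 < c0 → ∀ η : ℝ, 0 < η → ∃ C : ℝ, 0 < C ∧
  ∀ N : ℝ, 1 ≤ N → ∀ ξ : Ideal R → ℂ, (∀ I, ‖ξ I‖ ≤ 1) → ∀ S : Finset (Ideal R),
    (∀ I : Ideal R, I ∈ S ↔ nm I ≤ N ^ (1 / 2 + η)) →
    ‖smo V g (c0 * Real.sqrt N) ξ - ∑ I ∈ S, ξ I * g I / (nm I : ℂ) *
      (V (nm I / (c0 * Real.sqrt N)) : ℂ)‖ ≤ C / N := by
  classical
  intro V CV hV R ω hR g hg c0 hc0 η hη
  obtain ⟨-, hbot, hone, -, -, -, -, -, -⟩ := h1 R ω hR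
  obtain ⟨-, hsum, -⟩ := h2 R ω hR
  have hS2 : Summable (fun I : Ideal R => (nm I) ^ (-2 : ℝ)) := hsum 2 (by norm_num)
  have hnn : ∀ I : Ideal R, 0 ≤ (nm I) ^ (-2 : ℝ) := fun I => by
    have : 0 ≤ nm I := by unfold nm; positivity
    exact Real.rpow_nonneg this _
  obtain ⟨j, hj⟩ : ∃ j : ℕ, 2 ≤ j * η := by
    obtain ⟨j, hj⟩ := exists_nat_ge (2 / η)
    exact ⟨j, by rwa [div_le_iff₀ hη] at hj⟩
  set A : ℝ := CV * ((j + 2).factorial * 2 ^ (j + 2) * c0 ^ (j + 2)) with hA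
  have hCV := hV.pos
  have hf : (0 : ℝ) < (j + 2).factorial := by exact_mod_cast Nat.factorial_pos (j + 2)
  have hA0 : 0 < A := by positivity
  set Z : ℝ := ∑' I : Ideal R, (nm I) ^ (-2 : ℝ) with hZ
  have hZ0 : 0 ≤ Z := tsum_nonneg hnn
  refine ⟨A * Z + 1, by positivity, ?_⟩
  intro N hN ξ hξ S hS
  have hN0 : 0 < N := by linarith
  set F : Ideal R → ℂ := fun I => ξ I * g I / (nm I : ℂ) *
      (V (nm I / (c0 * Real.sqrt N)) : ℂ) with hF
  set G : Ideal R → ℂ := fun I => if I ∈ S then F I else 0 with hG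
  set H : Ideal R → ℂ := fun I => if I ∈ S then 0 else F I with hH
  have hGz : ∀ I, I ∉ S → G I = 0 := fun I hI => by simp [hG, hI]
  have hGs : Summable G := summable_of_ne_finset_zero (s := S) (fun I hI => hGz I hI)
  have hGt : ∑' I, G I = ∑ I ∈ S, F I := by
    rw [tsum_eq_sum (s := S) (fun I hI => hGz I hI)]
    exact Finset.sum_congr rfl (fun I hI => by simp [hG, hI])
  have hbound : ∀ I : Ideal R, ‖H I‖ ≤ A / N * (nm I) ^ (-2 : ℝ) := by
    intro I
    by_cases hI : I ∈ S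
    · simp only [hH, hI, if_true, norm_zero]
      exact mul_nonneg (by positivity) (hnn I)
    · simp only [hH, hI, if_false]
      have hlt : N ^ (1 / 2 + η) < nm I := by
        by_contra hc
        exact hI ((hS I).mpr (not_lt.mp hc))
      have hIb : I ≠ ⊥ := by
        rintro rfl
        rw [hbot] at hlt
        have : 0 ≤ N ^ (1 / 2 + η) := by positivity
        linarith
      have hn1 := hone I hIb
      have hn0 : 0 < nm I := by linarith
      have hnorm : ‖F I‖ = ‖ξ I‖ * (‖g I‖ / nm I * |V (nm I / (c0 * Real.sqrt N))|) := by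
        simp only [hF, norm_mul, norm_div, Complex.norm_real, Real.norm_eq_abs, abs_of_pos hn0]
        ring
      have hdec := hV.dec (nm I / (c0 * Real.sqrt N)) (by positivity)
      have hb := term_bound (η := η) hn1 hN hc0 hCV j hj hlt (hg.le I) (norm_nonneg _)
        (abs_nonneg _) hdec
      rw [hnorm]
      refine le_trans ?_ hb
      have h0 : 0 ≤ ‖g I‖ / nm I * |V (nm I / (c0 * Real.sqrt N))| := by positivity
      calc _ ≤ 1 * (‖g I‖ / nm I * |V (nm I / (c0 * Real.sqrt N))|) :=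
            mul_le_mul_of_nonneg_right (hξ I) h0
        _ = _ := one_mul _
  have hHs : Summable H :=
    Summable.of_norm_bounded (g := fun I : Ideal R => A / N * (nm I) ^ (-2 : ℝ))
      (hS2.mul_left _) hbound
  have hFGH : F = fun I => G I + H I := by
    funext I
    by_cases hI : I ∈ S <;> simp [hG, hH, hI]
  have hFt : ∑' I, F I = ∑' I, G I + ∑' I, H I := by
    rw [hFGH]
    exact hGs.tsum_add hHs
  have hsmo : smo V g (c0 * Real.sqrt N) ξ = ∑' I, F I := rfl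
  rw [hsmo, hFt, hGt, add_sub_cancel_left]
  have hHas : HasSum (fun I : Ideal R => A / N * (nm I) ^ (-2 : ℝ)) (A / N * Z) :=
    hS2.hasSum.mul_left _
  refine (tsum_of_norm_bounded hHas hbound).trans ?_
  rw [div_mul_eq_mul_div]
  exact div_le_div_of_nonneg_right (by linarith) hN0.le

end Pool.Agent.W192.HL.H836
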