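import Mathlib
import Pool.Agent.W192.HK.PartsL
import Pool.Agent.W192.HL.Gcd
import Pool.Agent.W192.HL.Box
import Pool.Agent.W192.HL.Orth
import Pool.Agent.W192.HL.Tail

/-!
# Project HL: mean square of the smooth sums
-/

set_option autoImplicit false

open Complex Filter Topology Set

namespace Pool.Agent.W192.HL

open Pool.Agent.W192.HK

theorem ms (hbasic : H_BASIC) (hcnt : H_CNT) (hpair : L_PAIR) (hfpr : H_FPR) : L_MS := by
  classical
  intro V CV hV R ω hR g hg c0 hc0 ε hε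
  set η : ℝ := min (ε / 8) (1 / 2) with hη'
  have hη : 0 < η := lt_min (by linarith) (by norm_num)
  have hη2 : η ≤ 1 / 2 := min_le_right _ _
  have hη8 : 8 * η ≤ ε := by
    have := min_le_left (ε / 8) (1 / 2 : ℝ)
    linarith
  obtain ⟨C1, hC1, hgcd⟩ := gcdsum hbasic hcnt R ω hR η hη
  obtain ⟨C2, hC2, hbox⟩ := box hbasic hcnt hpair R ω hR η hη hη2
  obtain ⟨C3, hC3, htail⟩ := Pool.Agent.W192.HL.H836.htail hbasic hcnt V CV hV R ω hR g hg c0 hc0 η hη
  obtain ⟨hfin, hbot, hge1, hmul, hsp, hdvd, htop, hnat, hunits⟩ := hbasic R ω hR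
  obtain ⟨hfinI, -, C4, hC4, -, hcnt4⟩ := hcnt R ω hR
  obtain ⟨CP, hCP, hP1⟩ := hpair R ω hR
  have hCVpos := hV.pos
  refine ⟨2 * (CV ^ 2 * C1 * C2) + 2 * C3 ^ 2 * Real.sqrt C4, by positivity, ?_⟩
  intro c χ hχ d hd
  obtain ⟨-, hnorm, -, -⟩ := hfpr R ω hR c χ hχ
  have hdN := (hcnt4 c χ hχ d hd).1
  set N := nm c with hN
  have hN1 : 1 ≤ N := hge1 c hχ.ne
  have hN0 : 0 < N := lt_of_lt_of_le one_pos hN1
  set Z : ℝ := N ^ (1 / 2 + η) with hZ
  have hZ1 : 1 ≤ Z := Real.one_le_rpow hN1 (by linarith)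
  have hZ0 : 0 < Z := lt_of_lt_of_le one_pos hZ1
  have hdpos : (0:ℝ) < d := by exact_mod_cast hd.pos
  have hnn : ∀ I : Ideal R, 0 ≤ nm I := fun I => Nat.cast_nonneg _
  have hZη : Z ^ η ≤ N ^ η := by
    rw [hZ, ← Real.rpow_mul hN0.le]
    apply Real.rpow_le_rpow_of_exponent_le hN1
    nlinarith
  set S : Finset (Ideal R) := (hfinI Z).toFinset with hS
  have hSm : ∀ I : Ideal R, I ∈ S ↔ nm I ≤ Z := by
    intro I
    simp [hS]
  set P : Finset (Ideal R × Ideal R) := (hP1 c χ hχ d hd Z Z hZ1 hZ1).1.toFinset with hP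
  have hPm : ∀ p, p ∈ P ↔ p ∈ prs χ Z Z := by
    intro p
    simp [hP]
  set X : ℝ := c0 * Real.sqrt N with hX
  have hX0 : 0 < X := by
    have := Real.sqrt_pos.2 hN0
    positivity
  set w : Ideal R → ℂ := fun I => g I / (nm I : ℂ) * (V (nm I / X) : ℂ) with hw
  set S' := S.filter (fun I => χ I ≠ 0) with hS'
  -- the main part
  have hmainsum : ∀ a : ℕ, ∑ I ∈ S, pw χ a I * g I / (nm I : ℂ) * (V (nm I / X) : ℂ) =
      ∑ I ∈ S', χ I ^ a * w I := by
    intro a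
    rw [hS', Finset.sum_filter]
    apply Finset.sum_congr rfl
    intro I _
    simp only [pw, hw]
    by_cases h : χ I = 0
    · simp [h]
    · simp only [h, if_false, ne_eq, not_false_eq_true, if_true]
      ring
  have hpwn : ∀ a : ℕ, ∀ I : Ideal R, ‖pw χ a I‖ ≤ 1 := by
    intro a I
    simp only [pw]
    by_cases h : χ I = 0
    · simp [h]
    · simp only [h, if_false, norm_pow, hnorm I h, one_pow, le_refl]
  have hwb : ∀ I : Ideal R, I ≠ ⊥ → ‖w I‖ ≤ CV * (1 / Real.sqrt (nm I)) := by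
    intro I hI
    have hp : 0 < nm I := lt_of_lt_of_le one_pos (hge1 I hI)
    have h1 : |V (nm I / X)| ≤ CV := by
      have h2 := hV.dec (nm I / X) (by positivity)
      have h3 : Real.exp (-(nm I / X / 2)) ≤ 1 := by
        rw [Real.exp_le_one_iff]
        have : 0 ≤ nm I / X / 2 := by positivity
        linarith
      calc |V (nm I / X)| ≤ CV * Real.exp (-(nm I / X / 2)) := h2
        _ ≤ CV * 1 := mul_le_mul_of_nonneg_left h3 hCVpos.le
        _ = CV := mul_one _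
    have h4 : ‖w I‖ = ‖g I‖ / nm I * |V (nm I / X)| := by
      simp only [hw, norm_mul, norm_div, Complex.norm_real, Real.norm_eq_abs]
      rw [abs_of_pos hp]
    have h5 : ‖g I‖ / nm I ≤ 1 / Real.sqrt (nm I) := by
      rw [div_le_div_iff₀ hp (Real.sqrt_pos.2 hp), one_mul]
      calc ‖g I‖ * Real.sqrt (nm I) ≤ Real.sqrt (nm I) * Real.sqrt (nm I) :=
            mul_le_mul_of_nonneg_right (hg.le I) (Real.sqrt_nonneg _)
        _ = nm I := Real.mul_self_sqrt hp.le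
    rw [h4, mul_comm CV]
    exact mul_le_mul h5 h1 (abs_nonneg _) (by positivity)
  have horth := Pool.Agent.W192.HL.H400.orth S' χ w d hd.pos (fun I hI => by
    simp only [hS', Finset.mem_filter] at hI
    exact hd.pow I hI.2)
  have hpairs : ∑ p ∈ S' ×ˢ S', (if χ p.1 = χ p.2 then ‖w p.1‖ * ‖w p.2‖ else 0) ≤
      CV ^ 2 * ∑ p ∈ S ×ˢ S, (if χ p.1 ≠ 0 ∧ χ p.1 = χ p.2 then
        1 / (Real.sqrt (nm p.1) * Real.sqrt (nm p.2)) else 0) := by
    rw [Finset.mul_sum]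
    have hsub : S' ×ˢ S' ⊆ S ×ˢ S :=
      Finset.product_subset_product (Finset.filter_subset _ _) (Finset.filter_subset _ _)
    refine le_trans (Finset.sum_le_sum (g := fun p : Ideal R × Ideal R =>
      CV ^ 2 * (if χ p.1 ≠ 0 ∧ χ p.1 = χ p.2 then
        1 / (Real.sqrt (nm p.1) * Real.sqrt (nm p.2)) else 0)) ?_)
      (Finset.sum_le_sum_of_subset_of_nonneg hsub ?_)
    · intro p hp
      simp only [hS', Finset.mem_product, Finset.mem_filter] at hp
      obtain ⟨⟨-, hp1⟩, ⟨-, hp2⟩⟩ := hp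
      have hb1 : p.1 ≠ ⊥ := fun h => hp1 ((hχ.zero _).2 (Or.inl h))
      have hb2 : p.2 ≠ ⊥ := fun h => hp2 ((hχ.zero _).2 (Or.inl h))
      by_cases he : χ p.1 = χ p.2
      · rw [if_pos he, if_pos ⟨hp1, he⟩]
        calc ‖w p.1‖ * ‖w p.2‖ ≤ (CV * (1 / Real.sqrt (nm p.1))) * (CV * (1 / Real.sqrt (nm p.2))) :=
              mul_le_mul (hwb _ hb1) (hwb _ hb2) (norm_nonneg _) (by positivity)
          _ = CV ^ 2 * (1 / (Real.sqrt (nm p.1) * Real.sqrt (nm p.2))) := by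
              rw [one_div, one_div, one_div, mul_inv]
              ring
      · rw [if_neg he, if_neg (fun h => he h.2)]
        simp
    · intro p _ _
      split_ifs
      · positivity
      · simp
  have hmain : ∑ a ∈ Finset.range d, ‖∑ I ∈ S', χ I ^ a * w I‖ ^ 2 ≤
      d * (CV ^ 2 * C1 * C2 * N ^ (4 * η) * Real.sqrt (N / d)) := by
    refine horth.trans (mul_le_mul_of_nonneg_left ?_ hdpos.le)
    refine le_trans ?_ (hpairs.trans ?_)
    · exact le_rfl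
    have h1 := hgcd c χ hχ Z hZ1 S hSm P hPm
    have h2 := hbox c χ hχ d hd P hPm
    have h3 : N ^ (4 * η) = N ^ η * N ^ (3 * η) := by
      rw [← Real.rpow_add hN0]; congr 1; ring
    calc CV ^ 2 * _ ≤ CV ^ 2 * (C1 * Z ^ η * ∑ p ∈ P, 1 / (Real.sqrt (nm p.1) * Real.sqrt (nm p.2))) :=
          mul_le_mul_of_nonneg_left h1 (by positivity)
      _ ≤ CV ^ 2 * (C1 * N ^ η * (C2 * N ^ (3 * η) * Real.sqrt (N / d))) := by
          apply mul_le_mul_of_nonneg_left _ (by positivity)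
          apply mul_le_mul _ h2 (Finset.sum_nonneg fun p _ => by positivity) (by positivity)
          exact mul_le_mul_of_nonneg_left hZη hC1.le
      _ = _ := by rw [h3]; ring
  -- the tail
  have hta : ∀ a : ℕ, ‖smo V g X (pw χ a) - ∑ I ∈ S', χ I ^ a * w I‖ ≤ C3 := by
    intro a
    have h1 := htail N hN1 (pw χ a) (hpwn a) S hSm
    rw [← hX, hmainsum a] at h1
    refine h1.trans ?_
    rw [div_le_iff₀ hN0]
    nlinarith
  have hpt : ∀ a ∈ Finset.range d, ‖smo V g X (pw χ a)‖ ^ 2 ≤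
      2 * ‖∑ I ∈ S', χ I ^ a * w I‖ ^ 2 + 2 * C3 ^ 2 := by
    intro a _
    have h1 := hta a
    have h2 : ‖smo V g X (pw χ a)‖ ≤ ‖∑ I ∈ S', χ I ^ a * w I‖ + C3 := by
      calc ‖smo V g X (pw χ a)‖ = ‖(∑ I ∈ S', χ I ^ a * w I) +
            (smo V g X (pw χ a) - ∑ I ∈ S', χ I ^ a * w I)‖ := by congr 1; ring
        _ ≤ _ := (norm_add_le _ _).trans (by linarith)
    have h3 : 0 ≤ ‖smo V g X (pw χ a)‖ := norm_nonneg _
    have h4 : 0 ≤ ‖∑ I ∈ S', χ I ^ a * w I‖ := norm_nonneg _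
    calc ‖smo V g X (pw χ a)‖ ^ 2 ≤ (‖∑ I ∈ S', χ I ^ a * w I‖ + C3) ^ 2 :=
          pow_le_pow_left₀ h3 h2 2
      _ ≤ _ := by nlinarith [sq_nonneg (‖∑ I ∈ S', χ I ^ a * w I‖ - C3)]
  have hNe : 1 ≤ N ^ ε := Real.one_le_rpow hN1 hε.le
  have hN4 : N ^ (4 * η) ≤ N ^ ε := Real.rpow_le_rpow_of_exponent_le hN1 (by linarith)
  have hsq : 1 ≤ Real.sqrt C4 * Real.sqrt (N / d) := by
    rw [← Real.sqrt_mul hC4.le, Real.one_le_sqrt]
    rw [← mul_div_assoc, le_div_iff₀ hdpos, one_mul]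
    exact hdN
  calc ∑ a ∈ Finset.range d, ‖smo V g X (pw χ a)‖ ^ 2
      ≤ ∑ a ∈ Finset.range d, (2 * ‖∑ I ∈ S', χ I ^ a * w I‖ ^ 2 + 2 * C3 ^ 2) :=
        Finset.sum_le_sum hpt
    _ = 2 * ∑ a ∈ Finset.range d, ‖∑ I ∈ S', χ I ^ a * w I‖ ^ 2 + d * (2 * C3 ^ 2) := by
        rw [Finset.sum_add_distrib, Finset.mul_sum, Finset.sum_const, Finset.card_range,
          nsmul_eq_mul]
    _ ≤ 2 * (d * (CV ^ 2 * C1 * C2 * N ^ (4 * η) * Real.sqrt (N / d))) + d * (2 * C3 ^ 2) := by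
        linarith
    _ ≤ 2 * (d * (CV ^ 2 * C1 * C2 * N ^ ε * Real.sqrt (N / d))) +
        d * (2 * C3 ^ 2) * (N ^ ε * (Real.sqrt C4 * Real.sqrt (N / d))) := by
        have h1 : CV ^ 2 * C1 * C2 * N ^ (4 * η) * Real.sqrt (N / d) ≤
            CV ^ 2 * C1 * C2 * N ^ ε * Real.sqrt (N / d) := by
          apply mul_le_mul_of_nonneg_right _ (Real.sqrt_nonneg _)
          exact mul_le_mul_of_nonneg_left hN4 (by positivity)
        have h2 : (d:ℝ) * (CV ^ 2 * C1 * C2 * N ^ (4 * η) * Real.sqrt (N / d)) ≤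
            d * (CV ^ 2 * C1 * C2 * N ^ ε * Real.sqrt (N / d)) :=
          mul_le_mul_of_nonneg_left h1 hdpos.le
        have h3 : (1:ℝ) ≤ N ^ ε * (Real.sqrt C4 * Real.sqrt (N / d)) := by
          calc (1:ℝ) = 1 * 1 := by ring
            _ ≤ _ := mul_le_mul hNe hsq zero_le_one (by positivity)
        have h4 : (d:ℝ) * (2 * C3 ^ 2) * 1 ≤
            d * (2 * C3 ^ 2) * (N ^ ε * (Real.sqrt C4 * Real.sqrt (N / d))) :=
          mul_le_mul_of_nonneg_left h3 (by positivity)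
        linarith
    _ = _ := by ring

end Pool.Agent.W192.HL
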