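import Mathlib
import Pool.Agent.W768.HK.Finn0
import Pool.Agent.W192.HK.AsmL

/-!
# Project HL: many Galois conjugates do not vanish (after helper768's `core`)
-/

set_option autoImplicit false

open Complex Filter Topology Set

namespace Pool.Agent.W192.HL

open Pool.Agent.W192.HK Pool.Agent.W768.HK.Finn0

theorem coreN (h0 : Pool.Agent.W192.CY.S_DIV) (h1 : H_BASIC) (h2 : H_CNT) (h3 : H_MU)
    (h4 : H_MOB) (h5 : N_MAINP) (h6 : N_DUALP) (h7 : H_FPR) (V : ℝ → ℝ) (CV : ℝ)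
    (hV : VH V CV) (R : Subring ℂ) (ω : ℂ) (hR : QR R ω)
    (g : Ideal R → ℂ) (hg : Gd R g) (c0 C1 : ℝ) (hc0 : 0 < c0) (hC1 : 0 < C1) (C6 : ℝ)
    (hC6 : 0 < C6) (ε : ℝ) (hε : 0 < ε) (hsmall : ε < 1 / 12) :
    ∃ q0 : ℝ, 2 ≤ q0 ∧ ∀ (c : Ideal R) (χ : Ideal R → ℂ), RC c χ → q0 ≤ nm c →
      ∀ d : ℕ, Od χ d → (nm c) ^ (2 / 3 + ε) ≤ d →
      ∀ (q hh : Ideal R) (T : Finset R), q ≠ ⊥ → c ∣ q → nm q ≤ C1 * nm c → hh ≠ ⊥ →
      IsCoprime hh q → Rp q hh T → ∀ k : R → ℂ, (∀ x : R, ‖k x‖ ≤ (nm c) ^ (-1 / 2 : ℝ)) →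
      ∀ L : ℕ → ℂ,
        (∀ a : ℕ, Nat.Coprime a d → ∀ X Y : ℝ, 0 < X → 0 < Y → X * Y = c0 * nm c →
          L a = smo V g X (pw χ a) + (∑ x ∈ T, pw χ a (sp x) * k x / pw χ a hh) *
            (starRingEnd ℂ) (smo V g Y (pw χ a))) →
        (∑ a ∈ Ea d 1, ‖L a‖ ^ 2 ≤ C6 * d * (nm c) ^ ε * Real.sqrt (nm c / d)) →
        d * (nm c) ^ (-(4 * ε)) * Real.sqrt (d / nm c) ≤
          (((Ea d 1).filter (fun a => (nm c) ^ (-ε) ≤ ‖L a‖)).card : ℝ) := by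
  classical
  obtain ⟨m, hm⟩ := h3 R ω hR
  obtain ⟨δ1, D1, q1, hδ1, hD1, H1⟩ := h5 V CV hV R ω hR m g hm hg ε hε hsmall
  obtain ⟨δ2, D2, q2, hδ2, hD2, H2⟩ := h6 V CV hV R ω hR m g hm hg (2 * c0) C1 (by linarith) hC1
    ε hε hsmall
  obtain ⟨hfin, -, C3, hC3, hcnt, hord⟩ := h2 R ω hR
  set δ := min δ1 δ2 with hδdef
  have hδ : 0 < δ := lt_min hδ1 hδ2
  obtain ⟨C4, hC4, -, H4⟩ := h0 (δ / 2) (by linarith)
  set C5 := C4 * C3 ^ (δ / 2) with hC5def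
  have hC5 : 0 < C5 := mul_pos hC4 (Real.rpow_pos_of_pos hC3 _)
  obtain ⟨C7, hC7, -, H7⟩ := h0 (ε / 2) (by linarith)
  set C8 := C7 * C3 ^ (ε / 2) with hC8def
  have hC8 : 0 < C8 := mul_pos hC7 (Real.rpow_pos_of_pos hC3 _)
  set C9 := 4 * C8 ^ 2 * C3 ^ 2 * C6 with hC9def
  have hC9 : 0 < C9 := by positivity
  obtain ⟨q3, H5⟩ := ev_small (2 * ((D1 + D2) * C5)) (2 * C3) (δ / 2) (ε / 2) (by linarith)
    (by linarith)
  obtain ⟨q4, H8⟩ := ev_small C9 0 ε 1 hε one_pos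
  refine ⟨max (max (max (max q1 q2) q3) q4) 2, le_max_right _ _, ?_⟩
  intro c χ hχ hq0'' d hd hle q hh T hq hcq hqC hhne hcop hT k hk L hL hsec
  have hq0' : max (max (max q1 q2) q3) 2 ≤ nm c :=
    max_le ((le_max_left _ _).trans ((le_max_left _ _).trans hq0'')) ((le_max_right _ _).trans hq0'')
  have hqd : q4 ≤ nm c := (le_max_right _ _).trans ((le_max_left _ _).trans hq0'')
  have hNd : (d : ℝ) ≤ C3 * nm c := (hord c χ hχ d hd).1
  obtain ⟨-, hχ1, -, -⟩ := h7 R ω hR c χ hχ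
  set Q := nm c with hQ
  have hq0 : max (max q1 q2) q3 ≤ Q := le_trans (le_max_left _ _) hq0'
  have hq2 : (2 : ℝ) ≤ Q := le_trans (le_max_right _ _) hq0'
  have hqpos : (0 : ℝ) < Q := by linarith
  have hq1 : (1 : ℝ) ≤ Q := by linarith
  have hqa : q1 ≤ Q := le_trans (le_trans (le_max_left _ _) (le_max_left _ _)) hq0
  have hqb : q2 ≤ Q := le_trans (le_trans (le_max_right _ _) (le_max_left _ _)) hq0
  have hqc : q3 ≤ Q := le_trans (le_max_right _ _) hq0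
  have hd1 : (1 : ℝ) < d := by
    refine lt_of_lt_of_le ?_ hle
    exact Real.one_lt_rpow (by linarith) (by linarith)
  have hd1' : 1 < d := by exact_mod_cast hd1
  have hdpos : (0 : ℝ) < d := by linarith
  obtain ⟨M₁, hM₁⟩ : ∃ M₁ : ℕ, M₁ = 1 := ⟨1, rfl⟩
  have hM₁1 : 1 ≤ M₁ := by omega
  have hM₁d : M₁ ∣ d := hM₁ ▸ one_dvd d
  rw [← hM₁] at hsec ⊢
  -- the two parts
  have hMn := H1 c χ hχ hqa d hd hle M₁ hM₁1 hM₁d
  have hDn := H2 c χ hχ hqb d hd hle M₁ hM₁1 hM₁d q hh T hq hcq hqC hhne hcop hT k hk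
  -- sizes
  set B := Q ^ (ε / 2) with hB
  have hBpos : 0 < B := Real.rpow_pos_of_pos hqpos _
  have hB1 : 1 ≤ B := Real.one_le_rpow hq1 (by linarith)
  set X := Q ^ (2 / 3 : ℝ) / 2 with hX
  set Y := 2 * c0 * Q ^ (1 / 3 : ℝ) with hY
  have hXpos : 0 < X := half_pos (Real.rpow_pos_of_pos hqpos _)
  have hYpos : 0 < Y := mul_pos (by linarith) (Real.rpow_pos_of_pos hqpos _)
  have hXY : X * Y = c0 * Q := by
    have : Q ^ (2 / 3 : ℝ) * Q ^ (1 / 3 : ℝ) = Q := by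
      rw [← Real.rpow_add hqpos]
      norm_num
    calc X * Y = c0 * (Q ^ (2 / 3 : ℝ) * Q ^ (1 / 3 : ℝ)) := by rw [hX, hY]; ring
      _ = c0 * Q := by rw [this]
  have hEa : ∀ a ∈ Ea d M₁, Nat.Coprime a d := by
    intro a ha
    unfold Ea at ha
    rw [Finset.mem_filter] at ha
    exact ha.2.1
  have hL' : ∀ a ∈ Ea d M₁, L a = smo V g X (pw χ a) +
      (∑ x ∈ T, pw χ a (sp x) * k x / pw χ a hh) * (starRingEnd ℂ) (smo V g Y (pw χ a)) := by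
    intro a ha
    exact hL a (hEa a ha) X Y hXpos hYpos hXY
  set S := ∑ a ∈ Ea d M₁, mol m g B (pw χ a) * smo V g X (pw χ a) with hS
  set D := ∑ a ∈ Ea d M₁, mol m g B (pw χ a) *
      (∑ x ∈ T, pw χ a (sp x) * k x / pw χ a hh) *
      (starRingEnd ℂ) (smo V g Y (pw χ a)) with hD
  have hTot : ∑ a ∈ Ea d M₁, mol m g B (pw χ a) * L a = S + D := by
    rw [hS, hD, ← Finset.sum_add_distrib]
    refine Finset.sum_congr rfl fun a ha => ?_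
    rw [hL' a ha]
    ring
  obtain ⟨K, hK⟩ : ∃ K : ℕ, K = (Ea d M₁).card := ⟨_, rfl⟩
  have hcard0 : K * Nat.totient M₁ = Nat.totient d := by
    obtain ⟨t, ht, -⟩ := h4 d M₁ (by omega) (by omega) hM₁d
    rw [hK]
    exact ht
  have hφpos : (0 : ℝ) < Nat.totient d := by
    exact_mod_cast Nat.totient_pos.2 (by omega)
  have hKφ : (Nat.totient d : ℝ) = K := by
    rw [← hcard0, hM₁, Nat.totient_one, mul_one]
  have hKpos : (0 : ℝ) < K := hKφ ▸ hφpos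
  rw [← hK] at hMn
  -- upper bound
  set G := (Ea d M₁).filter (fun a => Q ^ (-ε) ≤ ‖L a‖) with hG
  set W := C6 * d * Q ^ ε * Real.sqrt (Q / d) with hW
  have hW0 : 0 ≤ W := by positivity
  have hsplit : ∑ a ∈ Ea d M₁, ‖L a‖ ≤ K * Q ^ (-ε) + Real.sqrt (G.card * W) := by
    rw [← Finset.sum_filter_add_sum_filter_not (Ea d M₁) (fun a => Q ^ (-ε) ≤ ‖L a‖), add_comm]
    apply add_le_add
    · calc ∑ a ∈ (Ea d M₁).filter (fun a => ¬ Q ^ (-ε) ≤ ‖L a‖), ‖L a‖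
          ≤ ∑ a ∈ (Ea d M₁).filter (fun a => ¬ Q ^ (-ε) ≤ ‖L a‖), Q ^ (-ε) := by
            apply Finset.sum_le_sum
            intro a ha
            exact (not_le.1 (Finset.mem_filter.1 ha).2).le
        _ ≤ ∑ a ∈ Ea d M₁, Q ^ (-ε) :=
            Finset.sum_le_sum_of_subset_of_nonneg (Finset.filter_subset _ _)
              (fun _ _ _ => Real.rpow_nonneg hqpos.le _)
        _ = K * Q ^ (-ε) := by rw [Finset.sum_const, nsmul_eq_mul, hK]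
    · apply Real.le_sqrt_of_sq_le
      calc (∑ a ∈ G, ‖L a‖) ^ 2 ≤ G.card * ∑ a ∈ G, ‖L a‖ ^ 2 := sq_sum_le_card_mul_sum_sq
        _ ≤ G.card * ∑ a ∈ Ea d M₁, ‖L a‖ ^ 2 := by
            apply mul_le_mul_of_nonneg_left _ (Nat.cast_nonneg _)
            exact Finset.sum_le_sum_of_subset_of_nonneg (Finset.filter_subset _ _)
              (fun _ _ _ => sq_nonneg _)
        _ ≤ G.card * W := mul_le_mul_of_nonneg_left hsec (Nat.cast_nonneg _)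
  have hupper : ‖S + D‖ ≤ C3 * (K : ℝ) * Q ^ (-(ε / 2)) + C3 * B * Real.sqrt (G.card * W) := by
    rw [← hTot]
    calc ‖∑ a ∈ Ea d M₁, mol m g B (pw χ a) * L a‖
        ≤ ∑ a ∈ Ea d M₁, ‖mol m g B (pw χ a) * L a‖ := norm_sum_le _ _
      _ ≤ ∑ a ∈ Ea d M₁, (C3 * B) * ‖L a‖ := by
          refine Finset.sum_le_sum fun a ha => ?_
          rw [norm_mul]
          exact mul_le_mul_of_nonneg_right (mol_le hR h1 C3 hfin hcnt m hm g hg B hB1 (pw χ a)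
            (fun I => pw_le χ hχ1 a I)) (norm_nonneg _)
      _ = (C3 * B) * ∑ a ∈ Ea d M₁, ‖L a‖ := by rw [Finset.mul_sum]
      _ ≤ (C3 * B) * (K * Q ^ (-ε) + Real.sqrt (G.card * W)) :=
          mul_le_mul_of_nonneg_left hsplit (by positivity)
      _ = C3 * (K : ℝ) * (Q ^ (ε / 2) * Q ^ (-ε)) + C3 * B * Real.sqrt (G.card * W) := by
          rw [hB]; ring
      _ = _ := by
          rw [← Real.rpow_add hqpos]
          congr 3
          ring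
  -- lower bound
  have hlow : (K : ℝ) ≤ ‖S + D‖ + D1 * d * Q ^ (-δ1) + D2 * d * Q ^ (-δ2) := by
    have e1 : ((K : ℕ) : ℂ) = (S + D) - (S - (K : ℂ)) - D := by
      ring
    calc (K : ℝ) = ‖((K : ℕ) : ℂ)‖ := by simp
      _ = ‖(S + D) - (S - (K : ℂ)) - D‖ := by rw [← e1]
      _ ≤ ‖(S + D) - (S - (K : ℂ))‖ + ‖D‖ := norm_sub_le _ _
      _ ≤ ‖S + D‖ + ‖S - (K : ℂ)‖ + ‖D‖ := by
          gcongr
          exact norm_sub_le _ _
      _ ≤ _ := by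
          gcongr
  have hq1' : Q ^ (-δ1) ≤ Q ^ (-δ) :=
    Real.rpow_le_rpow_of_exponent_le hq1 (neg_le_neg (min_le_left _ _))
  have hq2' : Q ^ (-δ2) ≤ Q ^ (-δ) :=
    Real.rpow_le_rpow_of_exponent_le hq1 (neg_le_neg (min_le_right _ _))
  have hφ := H4 d (by omega)
  have hdφ : (d : ℝ) * Q ^ (-δ) ≤ C5 * Nat.totient d * Q ^ (-(δ / 2)) := by
    have e1 : (d : ℝ) = (d : ℝ) ^ (1 - δ / 2) * (d : ℝ) ^ (δ / 2) := by
      rw [← Real.rpow_add hdpos]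
      simp
    have e2 : (d : ℝ) ^ (δ / 2) ≤ C3 ^ (δ / 2) * Q ^ (δ / 2) := by
      rw [← Real.mul_rpow hC3.le hqpos.le]
      exact Real.rpow_le_rpow hdpos.le hNd (by linarith)
    calc (d : ℝ) * Q ^ (-δ)
        = (d : ℝ) ^ (1 - δ / 2) * (d : ℝ) ^ (δ / 2) * Q ^ (-δ) := by rw [← e1]
      _ ≤ (C4 * Nat.totient d) * (C3 ^ (δ / 2) * Q ^ (δ / 2)) * Q ^ (-δ) := by
          gcongr
      _ = C5 * Nat.totient d * (Q ^ (δ / 2) * Q ^ (-δ)) := by rw [hC5def]; ring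
      _ = C5 * Nat.totient d * Q ^ (-(δ / 2)) := by
          rw [← Real.rpow_add hqpos]
          congr 2
          ring
  have hfin' := H5 Q hqc
  have key : (K : ℝ) ≤ K *
      ((D1 + D2) * C5 * Q ^ (-(δ / 2)) + C3 * Q ^ (-(ε / 2))) + C3 * B * Real.sqrt (G.card * W) := by
    calc (K : ℝ) ≤ ‖S + D‖ + D1 * d * Q ^ (-δ1) +
          D2 * d * Q ^ (-δ2) := hlow
      _ ≤ (C3 * K * Q ^ (-(ε / 2)) + C3 * B * Real.sqrt (G.card * W)) + D1 * d * Q ^ (-δ) +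
          D2 * d * Q ^ (-δ) := by gcongr
      _ = (C3 * K * Q ^ (-(ε / 2)) + C3 * B * Real.sqrt (G.card * W)) +
          (D1 + D2) * (d * Q ^ (-δ)) := by
          ring
      _ ≤ (C3 * K * Q ^ (-(ε / 2)) + C3 * B * Real.sqrt (G.card * W)) + (D1 + D2) *
          (C5 * Nat.totient d * Q ^ (-(δ / 2))) := by gcongr
      _ = _ := by rw [hKφ]; ring
  have hhalf : (K : ℝ) ≤ 2 * (C3 * B * Real.sqrt (G.card * W)) := by
    have h8 : K * ((D1 + D2) * C5 * Q ^ (-(δ / 2)) + C3 * Q ^ (-(ε / 2))) ≤ (K : ℝ) * (1 / 2) := by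
      apply mul_le_mul_of_nonneg_left _ hKpos.le
      linarith
    linarith
  have hd' : (d : ℝ) ≤ C8 * K * Q ^ (ε / 2) := by
    have e1 : (d : ℝ) = (d : ℝ) ^ (1 - ε / 2) * (d : ℝ) ^ (ε / 2) := by
      rw [← Real.rpow_add hdpos]
      simp
    have e2 : (d : ℝ) ^ (ε / 2) ≤ C3 ^ (ε / 2) * Q ^ (ε / 2) := by
      rw [← Real.mul_rpow hC3.le hqpos.le]
      exact Real.rpow_le_rpow hdpos.le hNd (by linarith)
    have e3 := H7 d (by omega)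
    calc (d : ℝ) = (d : ℝ) ^ (1 - ε / 2) * (d : ℝ) ^ (ε / 2) := e1
      _ ≤ (C7 * Nat.totient d) * (C3 ^ (ε / 2) * Q ^ (ε / 2)) := by gcongr
      _ = C8 * K * Q ^ (ε / 2) := by rw [hC8def, hKφ]; ring
  have hQε : B * B = Q ^ ε := by
    rw [hB, ← Real.rpow_add hqpos]; congr 1; ring
  have hsqd : (d : ℝ) ^ 2 ≤ C9 * Q ^ (3 * ε) * d * Real.sqrt (Q / d) * G.card := by
    have h9 : (d : ℝ) ≤ C8 * (2 * (C3 * B * Real.sqrt (G.card * W))) * B := by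
      refine hd'.trans ?_
      rw [← hB]
      gcongr
    have h10 : Real.sqrt (G.card * W) ^ 2 = G.card * W := Real.sq_sqrt (by positivity)
    have h11 : Q ^ (3 * ε) = Q ^ ε * Q ^ ε * Q ^ ε := by
      rw [← Real.rpow_add hqpos, ← Real.rpow_add hqpos]; congr 1; ring
    calc (d : ℝ) ^ 2 ≤ (C8 * (2 * (C3 * B * Real.sqrt (G.card * W))) * B) ^ 2 :=
          pow_le_pow_left₀ hdpos.le h9 2
      _ = 4 * C8 ^ 2 * C3 ^ 2 * (B * B) * (B * B) * Real.sqrt (G.card * W) ^ 2 := by ring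
      _ = _ := by rw [h10, hQε, h11, hC9def, hW]; ring
  have hsq2 : Real.sqrt (Q / d) * Real.sqrt (d / Q) = 1 := by
    rw [← Real.sqrt_mul (by positivity), div_mul_div_comm, mul_comm Q, div_self (by positivity),
      Real.sqrt_one]
  have hC9Q : C9 ≤ Q ^ ε := by
    have h12 := H8 Q hqd
    rw [zero_mul, add_zero, Real.rpow_neg hqpos.le, ← div_eq_mul_inv,
      div_lt_one (Real.rpow_pos_of_pos hqpos _)] at h12
    exact h12.le
  have hfin2 : (d : ℝ) ≤ Q ^ (4 * ε) * Real.sqrt (Q / d) * G.card := by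
    have h13 : (d : ℝ) * d ≤ d * (C9 * Q ^ (3 * ε) * Real.sqrt (Q / d) * G.card) := by
      calc (d : ℝ) * d = (d : ℝ) ^ 2 := by ring
        _ ≤ _ := hsqd
        _ = _ := by ring
    have h14 := le_of_mul_le_mul_left h13 hdpos
    refine h14.trans ?_
    have h15 : Q ^ (4 * ε) = Q ^ ε * Q ^ (3 * ε) := by
      rw [← Real.rpow_add hqpos]; congr 1; ring
    rw [h15]
    gcongr
  have h16 : Q ^ (-(4 * ε)) * Q ^ (4 * ε) = 1 := by
    rw [← Real.rpow_add hqpos]; simp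
  calc d * Q ^ (-(4 * ε)) * Real.sqrt (d / Q)
      ≤ (Q ^ (4 * ε) * Real.sqrt (Q / d) * G.card) * Q ^ (-(4 * ε)) * Real.sqrt (d / Q) := by gcongr
    _ = (Q ^ (-(4 * ε)) * Q ^ (4 * ε)) * (Real.sqrt (Q / d) * Real.sqrt (d / Q)) * G.card := by ring
    _ = G.card := by rw [h16, hsq2]; ring

end Pool.Agent.W192.HL
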