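import Mathlib
import Pool.Agent.W192.HL.Many

/-!
# Project HL: assembly of the count of nonvanishing Galois conjugates
-/

set_option autoImplicit false

open Complex Filter Topology Set

namespace Pool.Agent.W192.HL

open Pool.Agent.W192.HK
open Pool.Agent.W192.CM (ez nu)

theorem asmM (hdiv : Pool.Agent.W192.CY.S_DIV) (hbasic : H_BASIC) (hcls : H_CLS) (hcnt : H_CNT)
    (hmu : H_MU) (hmob : H_MOB) (hmainp : N_MAINP) (hdualp : N_DUALP) (hfpr : H_FPR) (hv : N_V)
    (hafe : N_AFE) (hms : L_MS) (hgauss : H_GAUSS) (hprod : H_PROD) (hpw : H_PW)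
    {R : Subring ℂ} {ω : ℂ} (hR : QR R ω) (f : Ideal R) (ψ : Ideal R → ℂ)
    (hψ : HC 0 f ψ) :
    ∃ L : Ideal R → (Ideal R → ℂ) → ℂ → ℂ,
      (∀ (c : Ideal R) (χ : Ideal R → ℂ), IsCoprime f c → c ≠ ⊤ → HC 0 c χ →
        Differentiable ℂ (L c χ) ∧ ∀ s : ℂ, 1 < s.re →
          HasSum (fun I : Ideal R => ψ I * χ I * (nm I : ℂ) ^ (-s)) (L c χ s)) ∧
      ∀ ε : ℝ, 0 < ε → ε < 1 / 12 → ∃ N0 : ℝ, ∀ (c : Ideal R) (χ : Ideal R → ℂ),
        IsCoprime f c → HC 0 c χ → N0 ≤ nm c → ∀ d : ℕ, Od χ d → (nm c) ^ (2 / 3 + ε) ≤ d →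
          2 ≤ d ∧ (∀ a : ℕ, Nat.Coprime a d → HC 0 c (pw χ a)) ∧
          d * (nm c) ^ (-(4 * ε)) * Real.sqrt (d / nm c) ≤
            (((Finset.range d).filter (fun a => Nat.Coprime a d ∧
              (nm c) ^ (-ε) ≤ ‖L c (pw χ a) (1 / 2)‖)).card : ℝ) := by
  have hfpr' := hfpr
  have hgd := gd0_of hR hbasic hfpr hψ
  set g : Ideal R → ℂ := fun I => ψ I * (Real.sqrt (nm I) : ℂ) with hg
  obtain ⟨hfin, hbot, hge1, hmul, hsp, hdvd, htop, hnat, hunits⟩ := hbasic R ω hR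
  obtain ⟨h, hh1, -, hcls⟩ := hcls R ω hR
  obtain ⟨CV, hCV⟩ := hv
  have hf1 : 1 ≤ nm f := hge1 f hψ.ne
  have hfpos : 0 < nm f := lt_of_lt_of_le one_pos hf1
  set c0 : ℝ := ω.im ^ 2 * nm f / Real.pi ^ 2 with hc0
  have hc0p : 0 < c0 := by
    have := hR.im
    positivity
  classical
  -- the data for the conductor `f c`
  have hsys : ∀ c : Ideal R, ∃ (s : Finset (Ideal R)) (hh : Ideal R) (μ : R) (T : Finset R),
      c ≠ ⊥ → Sys (f * c) s hh μ T := by
    intro c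
    by_cases hc : c ≠ ⊥
    · haveI := hR.ded
      obtain ⟨s, hh, μ, T, -, hS⟩ := hcls (f * c) (mul_ne_zero hψ.ne hc)
      exact ⟨s, hh, μ, T, fun _ => hS⟩
    · exact ⟨∅, ⊥, 0, ∅, fun h' => absurd h' hc⟩
  choose s hh μ T hS using hsys
  let k : Ideal R → R → ℂ := fun c x => fp 0 ψ x * ez ω ((x : ℂ) / (μ c : ℂ)) /
    ((Real.sqrt (nm (f * c)) : ℂ) * ψ (hh c))
  have hex : ∀ (c : Ideal R) (χ : Ideal R → ℂ), ∃ F : ℂ → ℂ, (IsCoprime f c → c ≠ ⊤ → HC 0 c χ →
      Differentiable ℂ F ∧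
      (∀ z : ℂ, 1 < z.re →
        HasSum (fun I : Ideal R => ψ I * χ I * (nm I : ℂ) ^ (-z)) (F z)) ∧
      (∀ X Y : ℝ, 0 < X → 0 < Y → X * Y = c0 * nm c →
        F (1 / 2) = smo V0 g X χ + (∑ x ∈ T c, χ (sp x) * k c x / χ (hh c)) *
          (starRingEnd ℂ) (smo V0 g Y χ)) ∧
      ‖∑ x ∈ T c, χ (sp x) * k c x / χ (hh c)‖ ≤ 1) := by
    intro c χ
    by_cases hc : IsCoprime f c ∧ c ≠ ⊤ ∧ HC 0 c χ
    · obtain ⟨hfc, hct, hχ⟩ := hc
      have hprim := hprod R ω hR _ f c ψ χ hψ hχ hfc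
      have hSc := hS c hχ.ne
      have hft : f * c ≠ ⊤ := by
        intro h'
        apply hct
        have h'' : f * c ≤ c := Ideal.mul_le_right
        rw [h'] at h''
        exact eq_top_iff.2 h''
      obtain ⟨F, h1, h2, h3⟩ := hafe R ω hR (f * c) _ hprim hft _ _ _ _ hSc
      have hWeq : ∑ x ∈ T c, χ (sp x) * k c x / χ (hh c) =
          Wz ω (f * c) (hh c) (μ c) (T c) (fun I => ψ I * χ I) := by
        unfold Wz gT
        rw [Finset.sum_div]
        refine Finset.sum_congr rfl fun x _ => ?_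
        simp only [k, fp]
        simp only [div_eq_mul_inv, mul_inv]
        ring
      have hW : ‖Wz ω (f * c) (hh c) (μ c) (T c) (fun I => ψ I * χ I)‖ = 1 := by
        have hcpos : 0 < nm c := lt_of_lt_of_le one_pos (hge1 c hχ.ne)
        have hqpos : 0 < nm (f * c) := by rw [hmul]; positivity
        have g1 := (hgauss R ω hR 0 (f * c) _ hprim hft _ _ _ _ hSc).1
        have g2 : ‖gT ω 0 (fun I => ψ I * χ I) (μ c) (T c)‖ = Real.sqrt (nm (f * c)) := by
          rw [← g1, Real.sqrt_sq (norm_nonneg _)]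
        have g3 : ‖(fun I => ψ I * χ I) (hh c)‖ = 1 := by
          refine (hfpr' R ω hR _ _ hprim.rc).2.1 _ fun h' => ?_
          rcases (hprim.zero _).1 h' with h'' | h''
          · exact hSc.ne h''
          · exact h'' hSc.cop
        have hs : 0 < Real.sqrt (nm (f * c)) := Real.sqrt_pos.2 hqpos
        unfold Wz
        rw [norm_div, norm_mul, g2, g3, Complex.norm_real, Real.norm_eq_abs, abs_of_pos hs, mul_one,
          div_self hs.ne']
      refine ⟨F, fun _ _ _ => ⟨h1, h2, fun X Y hX hY hXY => ?_, by rw [hWeq, hW]⟩⟩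
      rw [h3 X Y hX hY (by rw [hXY, hc0, hmul]; ring)]
      have e1 : ∀ I : Ideal R, ψ I * χ I / (Real.sqrt (nm I) : ℂ) =
          χ I * g I / (nm I : ℂ) := by
        intro I
        rcases eq_or_ne I ⊥ with h0 | h0
        · rw [h0, (hψ.zero ⊥).2 (Or.inl rfl), hgd.zero]
          simp
        · have hp : 0 < nm I := lt_of_lt_of_le one_pos (hge1 I h0)
          have hp1 : (Real.sqrt (nm I) : ℂ) ≠ 0 := by
            have := Real.sqrt_pos.2 hp
            exact_mod_cast this.ne'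
          have hp2 : (nm I : ℂ) = (Real.sqrt (nm I) : ℂ) * (Real.sqrt (nm I) : ℂ) := by
            rw [← Complex.ofReal_mul, Real.mul_self_sqrt hp.le]
          simp only [hg]
          rw [hp2]
          field_simp
      congr 1
      · unfold smo
        refine tsum_congr fun I => ?_
        rw [e1]
      · congr 1
        · unfold Wz gT
          rw [Finset.sum_div]
          refine Finset.sum_congr rfl fun x _ => ?_
          simp only [k, fp]
          simp only [div_eq_mul_inv, mul_inv]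
          ring
        · unfold smo
          rw [Complex.conj_tsum]
          refine tsum_congr fun I => ?_
          rw [← e1]
          simp only [map_mul, map_div₀, Complex.conj_ofReal]
    · exact ⟨0, fun h1 h2 h3 => absurd ⟨h1, h2, h3⟩ hc⟩
  choose L hL using hex
  refine ⟨L, fun c χ h1 h2 h3 => ⟨(hL c χ h1 h2 h3).1, (hL c χ h1 h2 h3).2.1⟩, fun ε hε hε2 => ?_⟩
  obtain ⟨C, hC, hCC⟩ := hms V0 CV hCV R ω hR g hgd (Real.sqrt c0) (Real.sqrt_pos.2 hc0p) ε hε
  obtain ⟨q0, -, hq0⟩ := coreN hdiv hbasic hcnt hmu hmob hmainp hdualp hfpr V0 CV hCV R ω hR g hgd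
    c0 (nm f) hc0p hfpos (4 * C) (by positivity) ε hε hε2
  refine ⟨max q0 2, fun c χ hfc hχ hN d hd hdN => ?_⟩
  have hq0' : q0 ≤ nm c := le_trans (le_max_left _ _) hN
  have h2' : 2 ≤ nm c := le_trans (le_max_right _ _) hN
  have hcpos : 0 < nm c := by linarith
  have hSc := hS c hχ.ne
  have hct : c ≠ ⊤ := by
    intro h'
    have := (htop c).2 h'
    linarith
  have hk : ∀ x : R, ‖k c x‖ ≤ (nm c) ^ (-1 / 2 : ℝ) := by
    intro x
    have hqpos : 0 < nm (f * c) := by rw [hmul]; positivity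
    have hfpx : ‖fp 0 ψ x‖ ≤ 1 := by
      unfold fp
      rw [pow_zero, div_one]
      by_cases hz : ψ (sp x) = 0
      · rw [hz, norm_zero]; exact zero_le_one
      · exact ((hfpr R ω hR f ψ hψ.rc).2.1 _ hz).le
    have hψh : ‖ψ (hh c)‖ = 1 := by
      refine (hfpr R ω hR f ψ hψ.rc).2.1 _ fun h' => ?_
      rcases (hψ.zero _).1 h' with h'' | h''
      · exact hSc.ne h''
      · exact h'' (IsCoprime.of_mul_right_left hSc.cop)
    have hs : 0 < Real.sqrt (nm (f * c)) := Real.sqrt_pos.2 hqpos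
    have h7 : (nm c) ^ (-1 / 2 : ℝ) = (Real.sqrt (nm c))⁻¹ := by
      rw [Real.sqrt_eq_rpow, ← Real.rpow_neg hcpos.le]
      norm_num
    rw [h7]
    simp only [k, norm_div, norm_mul, ez_norm, mul_one, Complex.norm_real,
      Real.norm_eq_abs, abs_of_pos hs, hψh]
    rw [div_eq_mul_inv]
    have h8 : Real.sqrt (nm c) ≤ Real.sqrt (nm (f * c)) := by
      apply Real.sqrt_le_sqrt
      rw [hmul]
      nlinarith
    calc ‖fp 0 ψ x‖ * (Real.sqrt (nm (f * c)))⁻¹ ≤ 1 * (Real.sqrt (nm (f * c)))⁻¹ := by gcongr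
      _ ≤ (Real.sqrt (nm c))⁻¹ := by
        rw [one_mul]
        exact inv_anti₀ (Real.sqrt_pos.2 hcpos) h8
  haveI := hR.ded
  have hd2 : 2 ≤ d := by
    by_contra hlt
    have hd1 : d = 1 := by have := hd.pos; omega
    have h8 : (1 : ℝ) < (nm c) ^ (2 / 3 + ε) := Real.one_lt_rpow (by linarith) (by linarith)
    rw [hd1, Nat.cast_one] at hdN
    linarith
  have hprimp : ∀ a : ℕ, Nat.Coprime a d → HC 0 c (pw χ a) := fun a ha =>
    hpw R ω hR c χ hχ d hd a ha
  refine ⟨hd2, hprimp, ?_⟩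
  have hEa : Ea d 1 = (Finset.range d).filter (fun a => Nat.Coprime a d) := by
    unfold Ea
    apply Finset.filter_congr
    intro a _
    simp [Nat.mod_one]
  have hX : 0 < Real.sqrt c0 * Real.sqrt (nm c) :=
    mul_pos (Real.sqrt_pos.2 hc0p) (Real.sqrt_pos.2 hcpos)
  have hXX : Real.sqrt c0 * Real.sqrt (nm c) * (Real.sqrt c0 * Real.sqrt (nm c)) = c0 * nm c := by
    have e1 := Real.mul_self_sqrt hc0p.le
    have e2 := Real.mul_self_sqrt hcpos.le
    calc _ = (Real.sqrt c0 * Real.sqrt c0) * (Real.sqrt (nm c) * Real.sqrt (nm c)) := by ring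
      _ = _ := by rw [e1, e2]
  have hsec : ∑ a ∈ Ea d 1, ‖L c (pw χ a) (1 / 2)‖ ^ 2 ≤
      4 * C * d * (nm c) ^ ε * Real.sqrt (nm c / d) := by
    rw [hEa]
    have h5 := hCC c χ hχ.rc d hd
    calc ∑ a ∈ (Finset.range d).filter (fun a => Nat.Coprime a d), ‖L c (pw χ a) (1 / 2)‖ ^ 2
        ≤ ∑ a ∈ (Finset.range d).filter (fun a => Nat.Coprime a d),
            4 * ‖smo V0 g (Real.sqrt c0 * Real.sqrt (nm c)) (pw χ a)‖ ^ 2 := by
          refine Finset.sum_le_sum fun a ha => ?_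
          have h6 := (hL c (pw χ a) hfc hct (hprimp a (Finset.mem_filter.1 ha).2)).2.2
          have h7 : ‖L c (pw χ a) (1 / 2)‖ ≤
              2 * ‖smo V0 g (Real.sqrt c0 * Real.sqrt (nm c)) (pw χ a)‖ := by
            rw [h6.1 _ _ hX hX hXX]
            refine (norm_add_le _ _).trans ?_
            rw [norm_mul, RCLike.norm_conj]
            have h9 := mul_le_mul_of_nonneg_right h6.2
              (norm_nonneg (smo V0 g (Real.sqrt c0 * Real.sqrt (nm c)) (pw χ a)))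
            linarith
          have h8 := norm_nonneg (L c (pw χ a) (1 / 2))
          nlinarith [norm_nonneg (smo V0 g (Real.sqrt c0 * Real.sqrt (nm c)) (pw χ a))]
      _ ≤ ∑ a ∈ Finset.range d, 4 * ‖smo V0 g (Real.sqrt c0 * Real.sqrt (nm c)) (pw χ a)‖ ^ 2 :=
          Finset.sum_le_sum_of_subset_of_nonneg (Finset.filter_subset _ _)
            (fun _ _ _ => by positivity)
      _ = 4 * ∑ a ∈ Finset.range d, ‖smo V0 g (Real.sqrt c0 * Real.sqrt (nm c)) (pw χ a)‖ ^ 2 := by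
          rw [Finset.mul_sum]
      _ ≤ 4 * (C * d * (nm c) ^ ε * Real.sqrt (nm c / d)) := by gcongr
      _ = _ := by ring
  have hmain := hq0 c χ hχ.rc hq0' d hd hdN (f * c) (hh c) (T c)
    (mul_ne_zero hψ.ne hχ.ne) (Dvd.intro_left f rfl) (by rw [hmul]) hSc.ne hSc.cop hSc.rp (k c) hk
    (fun a => L c (pw χ a) (1 / 2)) (fun a ha X Y hX hY hXY =>
      (hL c (pw χ a) hfc hct (hprimp a ha)).2.2.1 X Y hX hY hXY) hsec
  refine hmain.trans (le_of_eq ?_)
  rw [hEa, Finset.filter_filter]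

end Pool.Agent.W192.HL
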